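import Pool.Agent.H85.TU.Targets

/-!
# Row CAA: the two coding cases
-/

set_option autoImplicit false

open Set Pool.Agent.H85.TU

namespace Pool.Agent.H52.TU

variable {ι : Type} {ar : ι → ℕ} {D : ι → Type}

theorem orb_refl (x : Str ar D ℕ) (a : ℕ) : Orb x a a := ⟨Equiv.refl ℕ, fun _ _ => rfl, rfl⟩

theorem orb_symm {x : Str ar D ℕ} {a b : ℕ} (h : Orb x a b) : Orb x b a := by
  obtain ⟨g, hg, hab⟩ := h
  refine ⟨g.symm, fun i v => ?_, by rw [← hab, g.symm_apply_apply]⟩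
  have h1 := hg i (g.symm ∘ v)
  have h2 : (g : ℕ → ℕ) ∘ (g.symm ∘ v) = v := by
    funext k
    simp
  rw [h2] at h1
  exact h1.symm

theorem not_fx {x : Str ar D ℕ} {a : ℕ} (h : ¬ Fx x a) : ∃ b, Orb x a b ∧ b ≠ a := by
  unfold Fx at h
  push Not at h
  exact h

theorem rho_ex (x : Str ar D ℕ) : ∃ ρ : ℕ → ℕ → ℕ × ℕ, ∀ m m', ¬ Fx x m → ¬ Fx x m' →
    Orb x m (ρ m m').1 ∧ Orb x m' (ρ m m').2 ∧ (ρ m m').1 ≠ (ρ m m').2 := by
  have h : ∀ m m', ∃ p : ℕ × ℕ, ¬ Fx x m → ¬ Fx x m' →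
      Orb x m p.1 ∧ Orb x m' p.2 ∧ p.1 ≠ p.2 := by
    intro m m'
    by_cases h1 : m = m'
    · subst h1
      by_cases h2 : Fx x m
      · exact ⟨(0, 0), fun h => (h h2).elim⟩
      · obtain ⟨b, hb, hne⟩ := not_fx h2
        exact ⟨(m, b), fun _ _ => ⟨orb_refl x m, hb, fun e => hne e.symm⟩⟩
    · exact ⟨(m, m'), fun _ _ => ⟨orb_refl x m, orb_refl x m', h1⟩⟩
  choose ρ hρ using h
  exact ⟨ρ, hρ⟩

/-- the two coding cases -/
theorem pf_CAA (hPFT : T_PFT) (hCD2 : T_CD2) (hCD1 : T_CD1) (hMFR : T_MFR) : T_CAA := by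
  intro ι _ ar D _ _ Y x hx h
  obtain ⟨ρ, hρ⟩ := rho_ex x
  rcases h with ⟨z, u, z', u', hzu, hzu', oz, ou, nz, nu, i, t, n, hn, hne⟩ |
    ⟨⟨a, ha⟩, i, h3, c0, c1, hc⟩
  · let T : Dat x := ⟨z, u, z', u', ρ, nz, nu, hzu, hzu', oz, ou, hρ⟩
    exact hPFT ι ar D Y x T (fun _ j _ => x j fun _ => 0) hx (fun _ _ => measurable_const) i t
      (parK T n) (x i (tup t n z' u'))
      (fun d => hCD2 ι ar D x T (AD d) (fun j _ => x j fun _ => 0) i t n hn hne)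
  · obtain ⟨b, hb, hba⟩ := not_fx ha
    have hb' : ¬ Fx x b := fun h => hba (h a (orb_symm hb)).symm
    let T : Dat x := ⟨a, b, a, b, ρ, ha, hb', fun e => hba e.symm, fun e => hba e.symm,
      orb_refl x a, orb_refl x b, hρ⟩
    exact hPFT ι ar D Y x T (fun d => fr1 T i c0 c1 (AD d)) hx
      (fun j v => hMFR ι ar D x T i c0 c1 j v) i (pt1 (ar i)) (fun _ => gP T) c1
      (fun d => hCD1 ι ar D x T (AD d) i c0 c1 h3 hc)

end Pool.Agent.H52.TU
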