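import Pool.Agent.H85.TU.Targets

/-!
# Row CSB: the dichotomy if the orbits are contained in classes of twins
-/

set_option autoImplicit false

open Set Pool.Agent.H85.TU

namespace Pool.Agent.H52.TU

variable {ι : Type} {ar : ι → ℕ} {D : ι → Type}

/-- twins are mapped to twins by isomorphisms -/
theorem tw_iso {x y : Str ar D ℕ} {g : ℕ ≃ ℕ} (hg : ∀ i v, y i (g ∘ v) = x i v) (a b : ℕ) :
    Tw x a b ↔ Tw y (g a) (g b) := by
  have key : ∀ c : ℕ, Equiv.swap (g a) (g b) (g c) = g (Equiv.swap a b c) := by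
    intro c
    by_cases h1 : c = a
    · subst h1
      rw [Equiv.swap_apply_left, Equiv.swap_apply_left]
    · by_cases h2 : c = b
      · subst h2
        rw [Equiv.swap_apply_right, Equiv.swap_apply_right]
      · rw [Equiv.swap_apply_of_ne_of_ne h1 h2, Equiv.swap_apply_of_ne_of_ne]
        · exact fun h => h1 (g.injective h)
        · exact fun h => h2 (g.injective h)
  constructor
  · intro h i v
    have e1 : v = g ∘ (g.symm ∘ v) := by
      funext k
      simp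
    have e2 : (Equiv.swap (g a) (g b) : ℕ → ℕ) ∘ v = g ∘ (Equiv.swap a b ∘ (g.symm ∘ v)) := by
      funext k
      have := key (g.symm (v k))
      simpa using this
    rw [e2, hg, h i]
    conv_rhs => rw [e1]
    rw [hg]
  · intro h i v
    have e2 : g ∘ (Equiv.swap a b ∘ v) = (Equiv.swap (g a) (g b) : ℕ → ℕ) ∘ (g ∘ v) := by
      funext k
      exact (key (v k)).symm
    rw [← hg i (Equiv.swap a b ∘ v), e2, h i, hg]

/-- the numbering is transported by isomorphisms -/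
theorem lb_iso {x y : Str ar D ℕ} {g : ℕ ≃ ℕ} (hg : ∀ i v, y i (g ∘ v) = x i v) {s : ℕ → ℕ}
    (hs : Lb y s) : Lb x fun a => s (g a) := by
  refine ⟨fun a b h e => g.injective (hs.1 _ _ ((tw_iso hg a b).1 h) e), fun a n hn => ?_⟩
  obtain ⟨b, hb, hb2⟩ := hs.2 (g a) n hn
  refine ⟨g.symm b, ?_, ?_⟩
  · rw [tw_iso hg, g.apply_symm_apply]
    exact hb
  · change s (g (g.symm b)) = n
    rw [g.apply_symm_apply]
    exact hb2

/-- the dichotomy if the orbits are contained in classes of twins -/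
theorem pf_CSB (hLAB : T_LAB) (hUNI : T_UNI) (hSIL : T_SIL) (hANA : T_ANA) : T_CSB := by
  intro ι _ ar D _ _ Y hY hT
  obtain ⟨Z, mZ, sZ, φ, ψ, hφ, hψ, hc, hex⟩ := hANA ι ar D Y hY
  have free : ∀ (ζ : Z) (g : ℕ ≃ ℕ), Aut (φ ζ) g → (∀ a, ψ ζ (g a) = ψ ζ a) → ∀ a, g a = a := by
    intro ζ g hg hs a
    exact ((hc ζ).2.1 a (g a) (hT (φ ζ) (hc ζ).1 g hg a) (hs a).symm).symm
  rcases hSIL ι ar D Z φ ψ hφ hψ free with ⟨S, hS, h⟩ | ⟨F, hF, h⟩
  · left
    refine ⟨φ '' S, hS.image _, fun x hx => ?_⟩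
    obtain ⟨s, hs⟩ := hLAB ι ar D x
    obtain ⟨ζ, rfl, -⟩ := hex x hx s hs
    obtain ⟨ζ', hζ', g, hg, -⟩ := h ζ
    exact ⟨φ ζ', ⟨ζ', hζ', rfl⟩, g, hg⟩
  · right
    refine ⟨fun u => φ (F u), hφ.comp hF, fun u => (hc (F u)).1, fun u w huw hiso => ?_⟩
    obtain ⟨g, hg⟩ := hiso
    obtain ⟨k, hk, hks⟩ := hUNI ι ar D (φ (F u)) (ψ (F u)) (fun a => ψ (F w) (g a)) (hc (F u)).2
      (lb_iso hg (hc (F w)).2)
    refine h u w huw ⟨k.trans g, fun i v => ?_, fun a => hks a⟩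
    have hg' : ∀ i v, φ (F w) i (g ∘ v) = φ (F u) i v := hg
    have e1 : (k.trans g : ℕ → ℕ) ∘ v = g ∘ (k ∘ v) := rfl
    rw [e1, hg', hk i]

end Pool.Agent.H52.TU
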