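import Pool.Agent.H85.TU.Targets
import Pool.Agent.H71.CQ.All
import Pool.Agent.H71.CQ.SYN2

/-!
# Row CT2: the dichotomy for two variables with counting quantifiers
-/

set_option autoImplicit false

open Set Pool.Agent.H85.TU

namespace Pool.Agent.H52.TU

/-- translation -/
def cnt2 {C : Type} [MeasurableSpace C] : Formula (Fin 2) bar (bD C) →
    Pool.Agent.H71.CQ.Formula C
  | .label _ B hB w => .label B hB (w (0 : Fin 2)) (w (1 : Fin 2))
  | .equal i j => .equal i j
  | .not φ => .not (cnt2 φ)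
  | .conj φ => .conj fun n => cnt2 (φ n)
  | .ex i φ => .cnt 1 i (cnt2 φ)
  | .atLeast k i φ => .cnt k i (cnt2 φ)

theorem holds_cnt2 {C : Type} [MeasurableSpace C] (x : Str bar (bD C) ℕ)
    (φ : Formula (Fin 2) bar (bD C)) :
    ∀ v, Pool.Agent.H71.CQ.Holds (fun w : Fin 2 → ℕ => x () w) (cnt2 φ) v ↔ Holds x φ v := by
  induction φ with
  | label i B hB w =>
    intro v
    have e : (![v (w (0 : Fin 2)), v (w (1 : Fin 2))] : Fin 2 → ℕ) = v ∘ w := by
      funext k
      match k with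
      | 0 => rfl
      | 1 => rfl
    change x () (![v (w (0 : Fin 2)), v (w (1 : Fin 2))] : Fin 2 → ℕ) ∈ B ↔ x () (v ∘ w) ∈ B
    rw [e]
  | equal i j => exact fun v => Iff.rfl
  | not φ ih => exact fun v => not_congr (ih v)
  | conj φ ih => exact fun v => forall_congr' fun n => ih n v
  | ex i φ ih =>
    intro v
    change ((1 : ℕ) : ℕ∞) ≤ {a | Pool.Agent.H71.CQ.Holds _ (cnt2 φ) (Function.update v i a)}.encard
      ↔ ∃ a, Holds x φ (Function.update v i a)
    rw [Nat.cast_one, Set.one_le_encard_iff_nonempty]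
    exact exists_congr fun a => ih _
  | atLeast k i φ ih =>
    intro v
    change (k : ℕ∞) ≤ {a | Pool.Agent.H71.CQ.Holds _ (cnt2 φ) (Function.update v i a)}.encard
      ↔ (k : ℕ∞) ≤ {a | Holds x φ (Function.update v i a)}.encard
    simp only [ih]

/-- the dichotomy for two variables with counting quantifiers -/
theorem pf_CT2 : T_CT2 := by
  intro C _ _ φ
  rcases Pool.Agent.H71.CQ.counting Pool.Agent.H71.CQ.pf_all (cnt2 φ) with
    ⟨S, hS, h⟩ | ⟨F, hF, hFm, hFi⟩
  · left
    refine ⟨(fun y (_ : Unit) => y) '' S, hS.image _, fun x hx => ?_⟩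
    obtain ⟨d, hd, g, hg⟩ := h (fun w : Fin 2 → ℕ => x () w) fun v => (holds_cnt2 x φ v).2 (hx v)
    exact ⟨_, ⟨d, hd, rfl⟩, g, fun _ v => hg v⟩
  · right
    refine ⟨fun u _ => F u, measurable_pi_lambda _ fun _ => hF,
      fun u v => (holds_cnt2 (fun _ => F u) φ v).1 (hFm u v), fun u v huv hiso => ?_⟩
    obtain ⟨g, hg⟩ := hiso
    exact huv (hFi u v ⟨g, fun w => hg () w⟩)

end Pool.Agent.H52.TU
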