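import Pool.Agent.H85.TU.Targets
import Pool.Agent.H73.HV.Silver

/-!
# Row SIL: the dichotomy for free actions
-/

set_option autoImplicit false

open Set Pool.Agent.H85.TU

namespace Pool.Agent.H52.TU

/-- a measurable family of measurable functions, with a countable set of parameters -/
theorem meas_disc {α β W : Type} [MeasurableSpace α] [MeasurableSpace β] [MeasurableSpace W]
    [Countable W] [MeasurableSingletonClass W] {h : α → W} (hh : Measurable h) {F : W → α → β}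
    (hF : ∀ w, Measurable (F w)) : Measurable fun x => F (h x) x := by
  intro B hB
  have e : (fun x => F (h x) x) ⁻¹' B = ⋃ w, (h ⁻¹' {w} ∩ F w ⁻¹' B) := by
    ext x
    simp
  rw [e]
  exact MeasurableSet.iUnion fun w => (hh (measurableSet_singleton w)).inter (hF w hB)

section

variable {ι : Type} {ar : ι → ℕ} {D : ι → Type} {Z : Type}

/-- the relation -/
def Rl (φ : Z → Str ar D ℕ) (ψ : Z → ℕ → ℕ) (ζ ζ' : Z) : Prop :=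
  ∃ g : ℕ ≃ ℕ, (∀ i v, φ ζ' i (g ∘ v) = φ ζ i v) ∧ ∀ a, ψ ζ' (g a) = ψ ζ a

theorem rl_refl (φ : Z → Str ar D ℕ) (ψ : Z → ℕ → ℕ) (ζ : Z) : Rl φ ψ ζ ζ :=
  ⟨Equiv.refl ℕ, fun _ _ => rfl, fun _ => rfl⟩

theorem rl_symm {φ : Z → Str ar D ℕ} {ψ : Z → ℕ → ℕ} {ζ ζ' : Z} (h : Rl φ ψ ζ ζ') :
    Rl φ ψ ζ' ζ := by
  obtain ⟨g, hg, hs⟩ := h
  refine ⟨g.symm, fun i v => ?_, fun a => ?_⟩
  · rw [← hg i (g.symm ∘ v)]
    congr 1
    funext k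
    simp
  · rw [← hs (g.symm a), g.apply_symm_apply]

theorem rl_trans {φ : Z → Str ar D ℕ} {ψ : Z → ℕ → ℕ} {ζ ζ' ζ'' : Z} (h : Rl φ ψ ζ ζ')
    (h' : Rl φ ψ ζ' ζ'') : Rl φ ψ ζ ζ'' := by
  obtain ⟨g, hg, hs⟩ := h
  obtain ⟨g', hg', hs'⟩ := h'
  refine ⟨g.trans g', fun i v => ?_, fun a => ?_⟩
  · have e : (g.trans g' : ℕ → ℕ) ∘ v = g' ∘ (g ∘ v) := rfl
    rw [e, hg', hg]
  · change ψ ζ'' (g' (g a)) = ψ ζ a
    rw [hs', hs]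

/-- the relation with its witnesses -/
def Wt (φ : Z → Str ar D ℕ) (ψ : Z → ℕ → ℕ) (π : (ℕ → ℕ) → Z) :
    Set (((ℕ → ℕ) × (ℕ → ℕ)) × ((ℕ → ℕ) × (ℕ → ℕ))) :=
  {x | (∀ n, x.2.2 (x.2.1 n) = n) ∧ (∀ n, x.2.1 (x.2.2 n) = n) ∧
    (∀ (i : ι) (v : Fin (ar i) → ℕ), φ (π x.1.2) i (x.2.1 ∘ v) = φ (π x.1.1) i v) ∧
    ∀ n, ψ (π x.1.2) (x.2.1 n) = ψ (π x.1.1) n}

theorem wt_fst (φ : Z → Str ar D ℕ) (ψ : Z → ℕ → ℕ) (π : (ℕ → ℕ) → Z) :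
    {p : (ℕ → ℕ) × (ℕ → ℕ) | Rl φ ψ (π p.1) (π p.2)} = Prod.fst '' Wt φ ψ π := by
  ext p
  constructor
  · rintro ⟨g, hg, hs⟩
    exact ⟨(p, (g, g.symm)), ⟨fun n => g.symm_apply_apply n, fun n => g.apply_symm_apply n,
      hg, hs⟩, rfl⟩
  · rintro ⟨⟨p', g, g'⟩, ⟨h1, h2, h3, h4⟩, rfl⟩
    exact ⟨⟨g, g', h1, h2⟩, h3, h4⟩

theorem wt_inj {φ : Z → Str ar D ℕ} {ψ : Z → ℕ → ℕ} {π : (ℕ → ℕ) → Z}
    (free : ∀ (ζ : Z) (g : ℕ ≃ ℕ), Aut (φ ζ) g → (∀ a, ψ ζ (g a) = ψ ζ a) → ∀ a, g a = a) :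
    InjOn Prod.fst (Wt φ ψ π) := by
  rintro ⟨p, g, g'⟩ ⟨h1, h2, h3, h4⟩ ⟨p2, k, k'⟩ ⟨l1, l2, l3, l4⟩ e
  dsimp only at h1 h2 h3 h4 l1 l2 l3 l4 e
  subst e
  let e1 : ℕ ≃ ℕ := ⟨g, g', h1, h2⟩
  let e2 : ℕ ≃ ℕ := ⟨k, k', l1, l2⟩
  have h5 : ∀ a, (e1.trans e2.symm) a = a := by
    refine free (π p.1) (e1.trans e2.symm) (fun i v => ?_) fun a => ?_
    · have h6 := l3 i ((e1.trans e2.symm : ℕ → ℕ) ∘ v)
      have h7 : k ∘ ((e1.trans e2.symm : ℕ → ℕ) ∘ v) = g ∘ v := by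
        funext j
        exact l2 (g (v j))
      rw [h7, h3] at h6
      exact h6.symm
    · have h6 := l4 ((e1.trans e2.symm) a)
      have h7 : k ((e1.trans e2.symm) a) = g a := l2 (g a)
      rw [h7, h4] at h6
      exact h6.symm
  have h8 : g = k := by
    funext a
    have h9 : k' (g a) = a := h5 a
    rw [← l2 (g a), h9]
  subst h8
  have h10 : g' = k' := by
    funext a
    have h11 : k' (g (g' a)) = g' a := l1 (g' a)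
    rw [h2] at h11
    exact h11.symm
  subst h10
  rfl

theorem wt_meas [Countable ι] [∀ i, MeasurableSpace (D i)] [∀ i, StandardBorelSpace (D i)]
    [MeasurableSpace Z] {φ : Z → Str ar D ℕ} {ψ : Z → ℕ → ℕ} {π : (ℕ → ℕ) → Z}
    (hφ : Measurable φ) (hψ : Measurable ψ) (hπ : Measurable π) :
    MeasurableSet (Wt φ ψ π) := by
  have a1 : Measurable fun x : ((ℕ → ℕ) × (ℕ → ℕ)) × ((ℕ → ℕ) × (ℕ → ℕ)) => x.2.1 :=
    measurable_fst.comp measurable_snd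
  have a2 : Measurable fun x : ((ℕ → ℕ) × (ℕ → ℕ)) × ((ℕ → ℕ) × (ℕ → ℕ)) => x.2.2 :=
    measurable_snd.comp measurable_snd
  have b1 : Measurable fun x : ((ℕ → ℕ) × (ℕ → ℕ)) × ((ℕ → ℕ) × (ℕ → ℕ)) => π x.1.1 :=
    hπ.comp (measurable_fst.comp measurable_fst)
  have b2 : Measurable fun x : ((ℕ → ℕ) × (ℕ → ℕ)) × ((ℕ → ℕ) × (ℕ → ℕ)) => π x.1.2 :=
    hπ.comp (measurable_snd.comp measurable_fst)
  have c1 : ∀ n, Measurable fun x : ((ℕ → ℕ) × (ℕ → ℕ)) × ((ℕ → ℕ) × (ℕ → ℕ)) => x.2.1 n :=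
    fun n => (measurable_pi_apply n).comp a1
  have c2 : ∀ n, Measurable fun x : ((ℕ → ℕ) × (ℕ → ℕ)) × ((ℕ → ℕ) × (ℕ → ℕ)) => x.2.2 n :=
    fun n => (measurable_pi_apply n).comp a2
  have f1 : ∀ (i : ι) (w : Fin (ar i) → ℕ),
      Measurable fun x : ((ℕ → ℕ) × (ℕ → ℕ)) × ((ℕ → ℕ) × (ℕ → ℕ)) => φ (π x.1.1) i w :=
    fun i w => (measurable_pi_apply w).comp ((measurable_pi_apply i).comp (hφ.comp b1))
  have f2 : ∀ (i : ι) (w : Fin (ar i) → ℕ),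
      Measurable fun x : ((ℕ → ℕ) × (ℕ → ℕ)) × ((ℕ → ℕ) × (ℕ → ℕ)) => φ (π x.1.2) i w :=
    fun i w => (measurable_pi_apply w).comp ((measurable_pi_apply i).comp (hφ.comp b2))
  have g1 : ∀ w : ℕ,
      Measurable fun x : ((ℕ → ℕ) × (ℕ → ℕ)) × ((ℕ → ℕ) × (ℕ → ℕ)) => ψ (π x.1.1) w :=
    fun w => (measurable_pi_apply w).comp (hψ.comp b1)
  have g2 : ∀ w : ℕ,
      Measurable fun x : ((ℕ → ℕ) × (ℕ → ℕ)) × ((ℕ → ℕ) × (ℕ → ℕ)) => ψ (π x.1.2) w :=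
    fun w => (measurable_pi_apply w).comp (hψ.comp b2)
  have k1 : ∀ n, Measurable fun x : ((ℕ → ℕ) × (ℕ → ℕ)) × ((ℕ → ℕ) × (ℕ → ℕ)) =>
      x.2.2 (x.2.1 n) := fun n => meas_disc (c1 n) c2
  have k2 : ∀ n, Measurable fun x : ((ℕ → ℕ) × (ℕ → ℕ)) × ((ℕ → ℕ) × (ℕ → ℕ)) =>
      x.2.1 (x.2.2 n) := fun n => meas_disc (c2 n) c1
  have k3 : ∀ (i : ι) (v : Fin (ar i) → ℕ),
      Measurable fun x : ((ℕ → ℕ) × (ℕ → ℕ)) × ((ℕ → ℕ) × (ℕ → ℕ)) =>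
        φ (π x.1.2) i (x.2.1 ∘ v) := fun i v =>
    meas_disc (W := Fin (ar i) → ℕ) (h := fun x => x.2.1 ∘ v)
      (measurable_pi_lambda _ fun k => c1 (v k)) (f2 i)
  have k4 : ∀ n, Measurable fun x : ((ℕ → ℕ) × (ℕ → ℕ)) × ((ℕ → ℕ) × (ℕ → ℕ)) =>
      ψ (π x.1.2) (x.2.1 n) := fun n => meas_disc (c1 n) g2
  refine measurableSet_setOfPred.2 ?_
  refine (Measurable.forall fun n => (k1 n).eq measurable_const).and
    ((Measurable.forall fun n => (k2 n).eq measurable_const).and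
    ((Measurable.forall fun i => Measurable.forall fun v => (k3 i v).eq (f1 i v)).and
    (Measurable.forall fun n => (k4 n).eq (g1 n))))

end

/-- the dichotomy for free actions -/
theorem pf_SIL : T_SIL := by
  intro ι _ ar D _ _ Z _ _ φ ψ hφ hψ free
  rcases isEmpty_or_nonempty Z with hZ | hZ
  · left
    exact ⟨∅, Set.countable_empty, fun ζ => (hZ.false ζ).elim⟩
  let _ := upgradeStandardBorel Z
  obtain ⟨π, hπ, hπs⟩ := PolishSpace.exists_nat_nat_continuous_surjective Z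
  let E : Setoid (ℕ → ℕ) := {
    r := fun a b => Rl φ ψ (π a) (π b)
    iseqv := ⟨fun a => rl_refl φ ψ _, fun h => rl_symm h, fun h h' => rl_trans h h'⟩ }
  have hEm : MeasurableSet {p : (ℕ → ℕ) × (ℕ → ℕ) | E p.1 p.2} := by
    have h2 : {p : (ℕ → ℕ) × (ℕ → ℕ) | E p.1 p.2} = Prod.fst '' Wt φ ψ π := wt_fst φ ψ π
    rw [h2]
    exact (wt_meas hφ hψ hπ.measurable).image_of_measurable_injOn measurable_fst (wt_inj free)
  rcases Pool.Agent.H73.HV.silver E hEm with hc | ⟨F, hF, hFE⟩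
  · left
    have : Countable (Quotient E) := hc
    refine ⟨Set.range fun q : Quotient E => π q.out, Set.countable_range _, fun ζ => ?_⟩
    obtain ⟨a, rfl⟩ := hπs ζ
    have h2 : E a (Quotient.mk E a).out := E.iseqv.symm (Quotient.mk_out a)
    exact ⟨_, ⟨Quotient.mk E a, rfl⟩, h2⟩
  · right
    exact ⟨fun u => π (F u), hπ.measurable.comp hF.measurable, fun u w huw h => hFE u w huw h⟩

end Pool.Agent.H52.TU
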